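import Mathlib
import Pool.Agent.Q259.ASC
import Pool.Agent.Q259.RandGraph

set_option autoImplicit false

open Filter Topology Pool.Agent.Q259.ASC Pool.Agent.Q259.RandGraph

namespace Pool.Agent.Results.MP_5f8894_co.NotFour

/-- Almost every graph has the property `P`: the proportion of the labelled graphs on `n` vertices
with the property tends to `1`. -/
def AlmostEvery (P : ∀ n : ℕ, SimpleGraph (Fin n) → Prop) : Prop :=
  Tendsto (fun n : ℕ => (Nat.card {G : SimpleGraph (Fin n) // P n G} : ℝ) /
    Nat.card (SimpleGraph (Fin n))) atTop (𝓝 1)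

theorem three : AlmostEvery (fun _ G => theta 3 G = 3) := by
  refine tendsto_of_ext (fun _ G => theta 3 G = 3) fun n hn G h1 h2 => ?_
  refine theta_eq_three G (by rw [Fintype.card_fin]; exact hn) ?_ ?_
  · intro a b c hab hac hbc
    obtain ⟨v, h⟩ := h1 a b c hab hac hbc
    exact ⟨v, h⟩
  · intro a b c hab hac hbc
    obtain ⟨v, h⟩ := h2 a b c hab hac hbc
    exact ⟨v, h⟩

/-- It is not true that almost every graph has `θ_3 = 4`; the proportion of the graphs with
`θ_3 = 4` even tends to `0`. -/
theorem result : ¬ AlmostEvery (fun _ G => theta 3 G = 4) ∧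
    Tendsto (fun n : ℕ => (Nat.card {G : SimpleGraph (Fin n) // theta 3 G = 4} : ℝ) /
      Nat.card (SimpleGraph (Fin n))) atTop (𝓝 0) := by
  have h3 := three
  have hle : ∀ n : ℕ, (Nat.card {G : SimpleGraph (Fin n) // theta 3 G = 4} : ℝ) /
      Nat.card (SimpleGraph (Fin n)) ≤
      1 - (Nat.card {G : SimpleGraph (Fin n) // theta 3 G = 3} : ℝ) /
      Nat.card (SimpleGraph (Fin n)) := by
    intro n
    have hpos := card_pos n
    have h1 := split_card (fun _ : SimpleGraph (Fin n) => True) (fun G => theta 3 G = 3)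
    simp only [true_and] at h1
    have h2 : {G : SimpleGraph (Fin n) | True} = Set.univ := rfl
    rw [h2, Set.ncard_univ] at h1
    have h4 : {G : SimpleGraph (Fin n) | theta 3 G = 4}.ncard ≤
        {G : SimpleGraph (Fin n) | ¬ theta 3 G = 3}.ncard := by
      refine Set.ncard_le_ncard (fun G hG => ?_) (Set.toFinite _)
      have hG' : theta 3 G = 4 := hG
      show ¬ theta 3 G = 3
      rw [hG']; norm_num
    have h5 : (Nat.card {G : SimpleGraph (Fin n) // theta 3 G = 4} : ℝ) +
        Nat.card {G : SimpleGraph (Fin n) // theta 3 G = 3} ≤ Nat.card (SimpleGraph (Fin n)) := by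
      have h6 : Nat.card {G : SimpleGraph (Fin n) // theta 3 G = 4} +
          Nat.card {G : SimpleGraph (Fin n) // theta 3 G = 3} ≤
          Nat.card (SimpleGraph (Fin n)) := by
        change {G : SimpleGraph (Fin n) | theta 3 G = 4}.ncard +
          {G : SimpleGraph (Fin n) | theta 3 G = 3}.ncard ≤ _
        omega
      exact_mod_cast h6
    rw [le_sub_iff_add_le, ← add_div, div_le_one hpos]
    exact h5
  have h0 : Tendsto (fun n : ℕ => (Nat.card {G : SimpleGraph (Fin n) // theta 3 G = 4} : ℝ) /
      Nat.card (SimpleGraph (Fin n))) atTop (𝓝 0) := by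
    have hlim : Tendsto (fun n : ℕ => 1 - (Nat.card {G : SimpleGraph (Fin n) // theta 3 G = 3} : ℝ) /
        Nat.card (SimpleGraph (Fin n))) atTop (𝓝 0) := by
      have := h3.const_sub 1
      simpa using this
    exact squeeze_zero (fun n => by positivity) hle hlim
  refine ⟨fun h4 => ?_, h0⟩
  exact zero_ne_one (tendsto_nhds_unique h0 h4)

end Pool.Agent.Results.MP_5f8894_co.NotFour
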