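import Mathlib
import Pool.Agent.Q259.ASC
import Pool.Agent.Q259.RandGraph

set_option autoImplicit false

open Filter Topology Pool.Agent.Q259.ASC Pool.Agent.Q259.RandGraph

namespace Pool.Agent.Results.MP_5f8894_co.ThetaThree

/-- Almost every graph has the property `P`: the proportion of the labelled graphs on `n` vertices
with the property tends to `1`. -/
def AlmostEvery (P : ∀ n : ℕ, SimpleGraph (Fin n) → Prop) : Prop :=
  Tendsto (fun n : ℕ => (Nat.card {G : SimpleGraph (Fin n) // P n G} : ℝ) /
    Nat.card (SimpleGraph (Fin n))) atTop (𝓝 1)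

/-- Almost every graph has `θ_3 = 3`. -/
theorem result : AlmostEvery (fun _ G => theta 3 G = 3) := by
  refine tendsto_of_ext (fun _ G => theta 3 G = 3) fun n hn G h1 h2 => ?_
  refine theta_eq_three G (by rw [Fintype.card_fin]; exact hn) ?_ ?_
  · intro a b c hab hac hbc
    obtain ⟨v, h⟩ := h1 a b c hab hac hbc
    exact ⟨v, h⟩
  · intro a b c hab hac hbc
    obtain ⟨v, h⟩ := h2 a b c hab hac hbc
    exact ⟨v, h⟩

end Pool.Agent.Results.MP_5f8894_co.ThetaThree
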